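import Mathlib
import Pool.Agent.H81.PerimIter

namespace Pool.Agent.Results.MP_26b77b_gt.NoConvergence

/-- `K` is a compact convex set with interior points whose boundary curve has a unique tangent
(supporting) line at every point. -/
def IsSmoothBody (K : Set (EuclideanSpace ℝ (Fin 2))) : Prop :=
  IsCompact K ∧ Convex ℝ K ∧ (interior K).Nonempty ∧
    ∀ x ∈ frontier K, ∃! u : EuclideanSpace ℝ (Fin 2), ‖u‖ = 1 ∧ ∀ y ∈ K, inner ℝ u y ≤ inner ℝ u x

/-- `z ∈ C` gives the largest perimeter among the triangles `a b w`, `w ∈ C`. -/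
def IsBest (C : Set (EuclideanSpace ℝ (Fin 2))) (a b z : EuclideanSpace ℝ (Fin 2)) : Prop :=
  z ∈ C ∧ ∀ w ∈ C, dist a b + dist a w + dist b w ≤ dist a b + dist a z + dist b z

/-- An admissible run of the iteration on the curve `C`. -/
def IsRun (C : Set (EuclideanSpace ℝ (Fin 2))) (X Y Z : ℕ → EuclideanSpace ℝ (Fin 2)) : Prop :=
  X 0 ∈ C ∧ Y 0 ∈ C ∧ Z 0 ∈ C ∧ AffineIndependent ℝ ![X 0, Y 0, Z 0] ∧
    ∀ n, IsBest C (X n) (Y n) (Z (n + 1)) ∧ IsBest C (X n) (Z (n + 1)) (Y (n + 1)) ∧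
      IsBest C (Y (n + 1)) (Z (n + 1)) (X (n + 1))

open Pool.Agent.H81.PerimIter in
theorem result : ∃ (K : Set (EuclideanSpace ℝ (Fin 2))) (X Y Z : ℕ → EuclideanSpace ℝ (Fin 2)),
    IsSmoothBody K ∧ IsRun (frontier K) X Y Z ∧
      ¬ ∃ a, Filter.Tendsto Z Filter.atTop (nhds a) := by
  have hK : ∀ z ∈ frontier K, z ∈ K := fun z hz => K_compact.isClosed.frontier_subset hz
  refine ⟨K, fun n => p (ix n 2), fun n => p (ix n 1), fun n => p (ix n 0),
    ⟨K_compact, K_convex, K_int, fun x => smooth⟩,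
    ⟨p_frontier _, p_frontier _, p_frontier _, indep, fun n => ⟨⟨p_frontier _, fun w hw => ?_⟩,
      ⟨p_frontier _, fun w hw => ?_⟩, ⟨p_frontier _, fun w hw => ?_⟩⟩⟩, not_conv⟩
  · have := p_max (ix n 0) (hK w hw)
    simp only [ix_succ, ← ix_add] at this ⊢
    simp only [zero_add] at this ⊢
    linarith
  · have := p_max (ix n 1) (hK w hw)
    simp only [ix_succ, ← ix_add] at this ⊢
    exact (add_assoc _ _ _).trans_le ((add_le_add_right this _).trans_eq (add_assoc _ _ _).symm)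
  · have := p_max (ix n 2) (hK w hw)
    simp only [ix_succ, ← ix_add] at this ⊢
    rw [add_comm, add_comm (dist (p (ix n (2 + 1))) (p (ix n (2 + 3))))] at this
    exact (add_assoc _ _ _).trans_le ((add_le_add_right this _).trans_eq (add_assoc _ _ _).symm)

end Pool.Agent.Results.MP_26b77b_gt.NoConvergence
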